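import Pool.Agent.Y128.CX.Few

/-!
# The Tate conjecture for products of few cyclic coverings with arbitrary singular varieties

Let `F` be a finitely generated field and `X` a smooth projective variety over `F` of dimension `N`
with an automorphism `σ` of odd prime order `p`, for instance the covering `y ^ p = G(x_0, ..., x_N)` of
the projective space of dimension `N` branched along a smooth hypersurface of degree divisible by `p`
(for `N = 1` the curves `y ^ p = g(x)`). Let `V` be the dual of the part of `H^N(X, ℚ_ℓ)` on which `σ`
has no invariants. Suppose that

* all eigenspaces of `σ` on `V` over the closure of `ℚ_ℓ` have the same dimension `r ≥ 3` (`Cyclic`;
  `ω` is the cup product), and all subgroups of finite index of the Galois group act irreducibly on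
  them (`StronglyIrreducibleEigenspaces`; for the coverings of the projective spaces this follows from
  the theorem of Carlson and Toledo for all members of the family outside a thin set), and
  on each of them no power of some Frobenius element is a scalar (`NonscalarOnEigenspaces`),
* there is an element `g` of the Galois group which acts on `V` as a complex reflection for `σ`
  (`IsReflection`), for instance an element of the inertia group of a place where the reduction has
  one singular orbit `y ^ p = x_1 ^ 2 + ... + x_N ^ 2` (one node of the branch divisor) with a
  regular total space.

Let `Y` be an ARBITRARY variety over `F`: a separated scheme of finite type, possibly singular,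
reducible, not proper; `M = H_b(Y, ℚ_ℓ(c))` is its etale (Borel-Moore) homology, nothing is known on
its semisimplicity, weights or Tate classes. The only hypothesis is that the element `g` acts on `M` in
a central way, that is, commutes with a subgroup of finite index (`ActsCentrally`); for instance `Y` has
potentially good reduction (in the sense that inertia acts on its homology through a finite
group, so that a power prime to `p` of `g` acts trivially) at the place above.

Theorem: if `n < r` then all invariants under subgroups of finite index of `V^{* ⊗ n} ⊗ M` (a direct
summand of the homology of `X ^ n × Y`) are linear combinations of products of the classes
`ω(σ ^ i u, v)` of the graphs of the powers of `σ`, in pairs of factors, and of one Tate class of `Y` in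
`H_b(Y)` (with the twist `c - N m`, `n = 2 m`); there are none if `n` is odd. So the statement (a) of
Jannsen for `X ^ n × Y` in this part of the homology follows from the one for `Y`. There is no
condition on Hodge numbers or on determinants: the Tate classes on the powers of `X` of Weil type (the
determinants of the eigenspaces), which exist in general, need at least `r` factors.

Idea. The slices of an invariant `f` are forms on `V`; let `T` be the set of all translates of them
under the whole group. Commutators of `g` with elements of a normal subgroup of finite index fix all
elements of `T`, so that differences of operators `R(t) Y R(t)⁻¹`, `Y` the reflection, generate a Lie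
algebra of operators which kill `T` and preserve the form. It contains an operator concentrated in one
pair of dual eigenspaces, since the reflection has pairwise different eigenvalues on the eigenspaces
(averages over its powers), in particular a nilpotent operator of rank one on an eigenspace; by the
strong irreducibility it contains all operators of rank one with square zero. There the weights of an
invariant have differences which are constant along each eigenspace, and the invariants of the
product of the groups `GL_r` are given by the first fundamental theorem if these differences vanish,
which is automatic for `n < r`.
-/

namespace Pool.Agent.Results.MP_4776b1_ag.CyclicCoversTimesSingular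

open Pool.Agent.Y128.SJ Pool.Agent.Y128.CC Pool.Agent.Y128.CX

/-- Tate classes on the products of few cyclic coverings with arbitrary, possibly singular varieties. -/
theorem result {k V M Γ : Type} [Field k] [CharZero k] [AddCommGroup V] [Module k V]
    [FiniteDimensional k V] [AddCommGroup M] [Module k M] [FiniteDimensional k M] [Group Γ]
    {p : ℕ} (hp : p.Prime) (hp2 : p ≠ 2) {N r : ℕ} (hr : 3 ≤ r)
    (ρ : Representation k Γ V) (τ : Representation k Γ M) (χ : Γ →* k)
    (ω : V →ₗ[k] V →ₗ[k] k) (σ : Module.End k V) (hX : CyclicModule p N r ρ χ ω σ)
    (hirr : StronglyIrreducibleEigenspaces p ρ σ) (hF : NonscalarOnEigenspaces p ρ σ)
    (g : Γ) (hg : IsReflection p σ (ρ g)) (hY : ActsCentrally τ g) (n : ℕ) (hn : n < r)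
    (f : MultilinearMap k (fun _ : Fin n => V) M) (hf : IsTateTensorWithValues ρ τ f) :
    f ∈ Submodule.span k (graphProductsWithValues N χ ω σ τ n) := by
  have : Fact p.Prime := ⟨hp⟩
  exact few hp2 hX hr hirr hF hg hY hn hf

end Pool.Agent.Results.MP_4776b1_ag.CyclicCoversTimesSingular
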