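import Pool.Agent.Y134.UL.GeoB

/-!
# The Tate conjecture for products of powers from the reduction modulo a prime

Let `W` be a Weil cohomology theory with algebraically closed coefficients (étale cohomology with
coefficients in the closure of `ℚ_ℓ`) on a class of smooth projective varieties over the
algebraic closure of a finitely generated field, with an action of a group `Γ` (the Galois group) on
the cohomology of the varieties under consideration; `χ` is the action on the Tate twists.

Let `X` be a variety of even dimension `n` whose cohomology is the orthogonal sum of a space spanned by
some algebraic classes (of which nothing else is supposed) and of a subspace `P` of the cohomology in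
degree `n`, which comes with its form (up to the twist) from a representation `V` of `Γ` over a field
`K₀` of characteristic `0`: for instance a hypersurface, a complete intersection, a double covering of
projective space, and its primitive cohomology `V = P^n(X, ℚ_ℓ)(n / 2)` over `K₀ = ℚ_ℓ`. Suppose
(`Strong`):

* `V` contains a lattice `Λ` over a local ring `R` with maximal ideal `l R`, stable under `Γ`, such that
  the form is integral on `Λ` and the radical of its reduction modulo `l` is generated by the class of a
  vector `r` in `Λ` with `b(r, r) / l` a unit, or is zero (`r = 0`); and for every normal subgroup
  `Γ'` of `Γ` of index at most `N !`, `N = dim V`, the space `Λ / l Λ` contains no subspace stable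
  under `Γ'`, except for `0`, `Λ / l Λ` and the radical;
* some element of `Γ` has exactly one eigenvalue on `V` which is a root of unity, namely
  `1` or `-1` with multiplicity one, and `dim V ≠ 1` (`SimpleSign`; if `N` is odd, `1` or `-1` is an
  eigenvalue of every isometry);
* the characteristic polynomial of some element of `Γ` has a simple isolated root `a` (`IsolatedRoot`;
  `~` is the equality up to a root of unity): `a δ ~ β γ` for roots `β`, `γ`, `δ` only if `β = a` or
  `γ = a` or `a δ ~ 1`; and `(β / a) ^ m`, `m > 0`, is not in the group generated by the
  eigenvalues on the cohomology of a given variety `Z` and of the other varieties `X_j` of the family
  for any root `β ≠ a`.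

NOTHING is supposed about the image of `Γ` in characteristic zero (irreducibility, monodromy,
semisimplicity), about the algebraic classes (standard conjectures) or about Hodge numbers.

**Theorem, first part.** The transcendental cohomology of `X`, the orthogonal complement of all algebraic
classes, is `P`, and the class of a cycle which is orthogonal to the classes of all cycles is zero;
and `P` is irreducible over the algebraically closed field under all subgroups of finite index of `Γ`.

**Theorem, second part.** Let `Y` be the product of `Z`, an arbitrary variety, and of powers
`X_i ^ (n_i + 1)` of some members of a family of such varieties with `n_i + 1 < dim P_i`. Then the Tate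
conjecture, for cycles of all codimensions, holds for `Y` if and only if it holds for `Z`.

So the Tate conjecture for `X ^ n`, `n < dim P`, and for `X ^ n × Z` if it holds for `Z`, follows from the
image of the Galois group in a finite group and from numerical conditions on one Frobenius
polynomial (both conditions on elements are satisfied, for instance, by a Frobenius element with the
polynomial `(X - ε) R` such that there are only trivial multiplicative relations between the roots
of `R`).

The condition on the reduction is a condition on the image `G` of `Γ` in the automorphism group of
`Λ / l Λ`. It is satisfied, for instance,

* for a double covering `X` of `ℙ^n` branched along a smooth hypersurface `B` (of even degree),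
  `l = 2`, if the image of `Γ` on `H^(n-1)(B, 𝔽_2)`, a symplectic space of dimension `N - 1 ≥ 6`, is the
  whole symplectic group (here `Λ / 2 Λ` modulo its radical is `H^(n-1)(B, 𝔽_2)`, and `Λ / 2 Λ` is the
  orthogonal space of dimension `N` over `𝔽_2` which belongs to it); for surfaces, the image on the points
  of order `2` of the Jacobian of the branch curve. More generally it is sufficient that the image is a
  simple group of order greater than `N !` which acts irreducibly and that no theta characteristic (a
  quadratic form on `H^(n-1)(B, 𝔽_2)` with the given polar form) is invariant;
* for a hypersurface or complete intersection of even dimension and for a prime number `l` which divides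
  the degree at most once, if `G` contains the commutator subgroup of the orthogonal group of
  `Λ / l Λ` (for `N` at least `7`, say), since this group is perfect, simple up to its centre, and its
  order is greater than `N !`.

Proof. Let `v` be the eigenvector of the element in the second condition. It is not isotropic, and
the projection to its line is a polynomial in every power of this element. Let `Δ` be a normal
subgroup of finite index and `U` the span of the orbit of `v` under `Δ`; then every subspace stable
under `Δ` contains `v` or is orthogonal to `v`, and so the translates of `U` under `Γ` are equal or
contain orthogonal vectors in the orbit of `v`: there are at most `N` of them. The subgroup which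
preserves all of them is normal with an index of at most `N !`, and so it acts irreducibly on `V` (by the
argument for lattices of the theorem `TorsionOfBranchDivisor`), so that `U = V`. Hence every subspace over
the algebraically closed field which is stable under `Δ` contains `v` and then is everything, or it is
orthogonal to `v` and then so is its orthogonal complement, which contains `v`. The second part
follows from the first one and the theorem `IsolatedEigenvalues`, in which the irreducibility is a
hypothesis.
-/

set_option autoImplicit false

universe u

namespace Pool.Agent.Results.MP_4776b1_ag.PowersFromReduction

open Pool.Agent.H914 Pool.Agent.H281R3.HT Pool.Agent.TH125.Gal Pool.Agent.Y130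
  Pool.Agent.Y134.TF Pool.Agent.Y134.UL

/-- **The Tate conjecture for products of powers from the reduction modulo a prime.** -/
theorem result {k : Type u} [Field k] {𝒱 : VarClass k} {ops : CycleOps 𝒱}
    {W : WeilCohomology.{u, 0} ops} [IsAlgClosed W.K] {Γ : Type} [Group Γ] {χ : Γ →* W.Kˣ}
    {ι : Type} {X : ι → PVar W Γ} {Z : GVar W Γ}
    (h : ∀ i, Strong χ (X i) (otherEig (fun j => (X j).toGVar) Z i)) :
    (∀ i, (X i).Trans) ∧
      ∀ {S : Set ι} {Y : GVar W Γ},
        PTower (fun i => (X i).toGVar) Z (fun i n => n + 1 < rk (X i).P) S Y →
          (TateConjecture χ Y ↔ TateConjecture χ Z) :=
  ⟨fun i => (strongVar (h i)).2.1, fun hY => tate_strong h hY⟩

end Pool.Agent.Results.MP_4776b1_ag.PowersFromReduction
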