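import Mathlib
import Pool.Agent.Y114.OP.Zero6

/-!
# All Tate classes on `X^m × Y` for an arbitrary variety `Y`: the splitting theorem

Let `k` be the function field of a smooth variety `B` over `ℚ` (or `k = ℚ`), `X` a smooth projective
variety over `k` (or a finite set of pure motives `M i`; the Tate motive is one of them, the part
`i₀`), and `Y` ANY variety over `k`, singular or not, proper or not.

Let `Γ` be the fundamental group of `B`, `ρ ℓ i` the `ℓ`-adic realization of `M i`, pure of weight
`w i`, for ALL prime numbers `ℓ`, and `V ℓ` the sum of the `ρ ℓ i`.  Let `τ ℓ j` be arbitrary further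
representations of `Γ`, for example the étale Borel–Moore homology groups `H_a(Y, ℚ_ℓ(b))`.  They do
not have to be semisimple or pure; we only assume that their Frobenius polynomials are rational,
independent of `ℓ`, and products of pure polynomials of given weights (`MixedPoint`).  Nothing is
assumed on the Tate classes, the algebraic cycles or the motivic Galois group of `Y`.

A rational point `b` of `B` gives a homomorphism `s` from the Galois group of `ℚ` to `Γ`; the member
over `b` has good reduction outside a finite set which depends on `b` (`GoodPoint`; the constant `c`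
is there for the twists).  `𝔤 ℓ` is the Lie algebra of the motivic Galois group of the sum of the
`M i`, or of another reductive group for which the tensors killed by `𝔤 ℓ` are Tate tensors; `r + 1`
is its rank, `r` the rank of the part of weight zero (the elements which are zero on the Tate part
`i₀`; in Hodge theory: the rank of the Hodge group).

By the Künneth formula a Tate class on `X^m × Y` is a map from a tensor construction on `V` to a
`τ ℓ j` which is equivariant under the Galois group (over finite extensions: under a subgroup of
finite index), that is a multilinear map `Φ` in `m` variables in `V ⊕ V^*` with values in `τ ℓ j`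
(`TateMap`).

Suppose that at ONE prime number `ℓ₀` there is ONE element `γ₀` of `Γ` with `r` eigenvalues on `V ℓ₀`
which are multiplicatively independent modulo the group generated by ALL eigenvalues of `γ₀` on the
`τ ℓ₀ j` and on the part `i₀` (`IndepFrom`): the Frobenius tori of `X` and of `Y` have only the
cyclotomic part in common.

Theorem.  There is an open neighbourhood `O` of `γ₀` such that for all points `b` for which the image
of `s` meets `O` (all points outside a thin set if `B` is open in an affine space) and for EVERY
prime number `ℓ`, both for the generic member and for the member over `b` (`TateSplit`)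

* `V ℓ` is semisimple (for all subgroups of finite index);
* the Lie algebra `𝔥` of the endomorphisms which kill all Tate tensors on `V ℓ` is a reductive
  subalgebra of `𝔤 ℓ` of rank `r + 1`, and `𝔥 = 𝔤 ℓ` if the Tate classes in `V ⊗ V^*` are motivic;
* for every `j` all `Φ` as above are killed by ALL elements of `𝔥` which are zero on the Tate part
  (also by the centre, the complex multiplication part).

So the Tate classes on `X^m × Y` are in the products of the classes on `X^m` which are killed by the
elements of `𝔥` zero on the Tate part, that is (if the part `i₀` is `ℚ(1)`) the Tate classes up to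
twists, and of the classes on `Y`, which are then Tate classes.  If `𝔥 = 𝔤` and the classes on the
`X^m` which are killed by `𝔤` are algebraic, then the surjectivity in the conjecture for all
`X^m × Y` is EQUIVALENT to the surjectivity for `Y`.

`MP_40dc3c_ag.ProductsWithAnyVariety` has a weaker condition (independence modulo the quotients of
the eigenvalues on the same `τ ℓ j`) and only says that the brackets `[𝔥, 𝔥]` kill the `Φ`: there the
classes on `X^m` in the products need not be Tate classes.  Neither theorem contains the other.

The proof.  (1) As there: the relations between the eigenvalues follow from bounded ones (`S_REL2`),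
the bounded relations are locally constant on `Γ` (`S_ROOT2`), so infinitely many Frobenius elements
have the property assumed of `γ₀`, with the same polynomials for all `ℓ`; and the Lie algebra `L'`
attached to `V ⊕ W`, `W = τ ℓ j`, has image `𝔥` in the endomorphisms of `V` (`part_eq`).  (2) Let `L₀`
be the subspace of the elements of `L'` which are zero on the Tate part.  It is stable under the
conjugation by a Frobenius element.  Let `X` in `L₀` be in a generalized eigenspace for `c`.  If `X`
is not zero on `V` and on `W`, then `c` is a quotient of two eigenvalues on `W`, and of two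
eigenvalues on the same part of `V`; by the independence a power of `c` is a power of the eigenvalue
on the Tate part, and by purity `c` is a root of unity.  So `X` commutes on `V` with the Frobenius
torus, and is there in its Lie algebra: it is given by an additive function `θ` on the eigenvalues,
zero on the Tate part.  By the independence and the divisibility of `ℂ` there is an additive
function `θ'` with the same values on the eigenvalues on `V` and with the value zero on all
eigenvalues on `W` (`exists_theta`), and its operator is in `L'`: this is `X` on `V` and `0` on `W`.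
(3) So `X ⊕ 0` is in `L'` for all `X` in `𝔥` which are zero on the Tate part, and it kills `Φ`, a Tate
tensor on `V ⊕ W`.
-/

set_option autoImplicit false

namespace Pool.Agent.Results.MP_4776b1_ag.TateClassesOnProducts

open NumberField IsDedekindDomain Polynomial Module Pool.Agent.Y114.TF Pool.Agent.Y114.GF
  Pool.Agent.Y114.MU Pool.Agent.Y114.RM Pool.Agent.Y114.OP Pool.Agent.H204R3.GP

theorem result {Γ : Type} [Group Γ] [TopologicalSpace Γ] [IsTopologicalGroup Γ] [CompactSpace Γ]
    {ι : Type} [Fintype ι] [DecidableEq ι] {n : ι → ℕ} {κ : Type} [Fintype κ] {m : κ → ℕ}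
    {K : Type} [Fintype K]
    -- `X`: the `ℓ`-adic realizations of families of motives of weights `w i`
    (ρ : ∀ (ℓ : ℕ) [Fact ℓ.Prime], Reps Γ n ℓ) (hρ : ∀ (ℓ : ℕ) [Fact ℓ.Prime], Conts (ρ ℓ))
    (w : ι → ℤ)
    -- the Lie algebra of the motivic Galois group, of rank at most `r + 1`
    (𝔤 : ∀ (ℓ : ℕ) [Fact ℓ.Prime], EndSpace n ℓ)
    (h𝔤 : ∀ (ℓ : ℕ) [Fact ℓ.Prime], Motivic (ρ ℓ) (𝔤 ℓ)) (r : ℕ)
    (hrank : ∀ (ℓ : ℕ) [Fact ℓ.Prime], RankLE (𝔤 ℓ) (r + 1))
    -- the Tate part
    (i₀ : ι) (hn₀ : n i₀ = 1) (hw₀ : w i₀ ≠ 0)
    -- `Y`: arbitrary representations, mixed with weights `w'`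
    (τ : ∀ (ℓ : ℕ) [Fact ℓ.Prime], Reps Γ m ℓ) (hτ : ∀ (ℓ : ℕ) [Fact ℓ.Prime], Conts (τ ℓ))
    (w' : K → ℤ) (c : ℕ)
    -- one prime number `ℓ₀` and one element
    (ℓ₀ : ℕ) [Fact ℓ₀.Prime] (γ₀ : Γ) (hγ₀ : IndepFrom (ρ ℓ₀) i₀ (τ ℓ₀) r γ₀) :
    -- all points outside a thin set, and every prime number `ℓ`
    ∃ O : Set Γ, IsOpen O ∧ γ₀ ∈ O ∧ ∀ s : Gal(AlgebraicClosure ℚ/ℚ) →* Γ, GoodPoint ρ w c s →
      MixedPoint τ w' c s → (∃ g, s g ∈ O) → ∀ (ℓ : ℕ) [Fact ℓ.Prime],
        TateSplit (ρ ℓ) i₀ (τ ℓ) (𝔤 ℓ) (r + 1) ∧
        TateSplit (restrictTo (ρ ℓ) s) i₀ (restrictTo (τ ℓ) s) (𝔤 ℓ) (r + 1) :=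
  Pool.Agent.Y114.OP.zero_complete ρ hρ w 𝔤 h𝔤 r hrank i₀ hn₀ hw₀ τ hτ w' c ℓ₀ γ₀ hγ₀

end Pool.Agent.Results.MP_4776b1_ag.TateClassesOnProducts
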